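import Mathlib
set_option autoImplicit false

/-!
# A regular incomplete graph any two maximal cliques of which meet

Graph and proof of helper708 (`Pool/Agent/Results/MP_7a760c_co/BergeFails.lean`), copied.

`X` is the following graph on `31 + 2 * 31 * 8 = 527` vertices. Its vertices are the `31` points of the
projective space `PG(4, 2)`, i.e. the nonzero vectors of `𝔽₂ ^ 5`, and, for both values of `s` and for
each nonzero linear form `f` on `𝔽₂ ^ 5`, a class of eight vertices `(s, f, i)`. All the points are
adjacent to each other; the point `p` is adjacent to `(s, f, i)` iff `f p = 0`; the eight vertices of a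
class are adjacent to each other; the vertices `(false, f, i)` and `(true, g, j)` are always adjacent;
there are no other edges.

`X` is regular of degree `270`. A maximal clique of `X` meets at most one class with `s = false` and at
most one class with `s = true`, hence it contains all the points of a projective plane `f = g = 0`, and two
planes of `PG(4, 2)` have a point in common. So any two maximal cliques of `X` share a vertex: `X` is a
counterexample to Berge's conjecture. The complement `G` of `X` is regular of degree `256` and does have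
disjoint maximal cliques, e.g. `{(false, f, 0)}` and `{(true, f, 0)}`.
-/

namespace Run7.h873.Berge

/-- the parity of the number of ones among the last five binary digits -/
def par (x : ℕ) : Bool :=
  xor (x.testBit 0) (xor (x.testBit 1) (xor (x.testBit 2) (xor (x.testBit 3) (x.testBit 4))))

lemma par_and_xor (a x y : ℕ) : par (a &&& (x ^^^ y)) = xor (par (a &&& x)) (par (a &&& y)) := by
  unfold par
  simp only [Nat.testBit_and, Nat.testBit_xor, Bool.and_xor_distrib_left]
  simp only [Bool.xor_assoc, Bool.xor_left_comm]

/-- the linear form with the number `f` (its coefficients are the binary digits of `f + 1`) vanishes at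
the point with the number `p` (its coordinates are the binary digits of `p + 1`) -/
def orth (f p : Fin 31) : Bool := ! par ((f.val + 1) &&& (p.val + 1))

lemma four (f g f' g' : Fin 31) :
    ∃ p : Fin 31, orth f p = true ∧ orth g p = true ∧ orth f' p = true ∧ orth g' p = true := by
  let φ : Fin 32 → Bool × Bool × Bool × Bool := fun x =>
    (par ((f.val + 1) &&& x.val), par ((g.val + 1) &&& x.val), par ((f'.val + 1) &&& x.val),
      par ((g'.val + 1) &&& x.val))
  obtain ⟨x, y, hxy, h⟩ := Fintype.exists_ne_map_eq_of_card_lt φ (by decide)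
  have hz : x.val ^^^ y.val ≠ 0 := by
    intro h0
    exact hxy (Fin.ext (by simpa using Nat.xor_eq_zero_iff.mp h0))
  have hlt : x.val ^^^ y.val < 32 := Nat.xor_lt_two_pow (n := 5) x.isLt y.isLt
  have key : ∀ a : ℕ, par (a &&& x.val) = par (a &&& y.val) → par (a &&& (x.val ^^^ y.val)) = false := by
    intro a ha
    rw [par_and_xor, ha, Bool.xor_self]
  simp only [φ, Prod.mk.injEq] at h
  obtain ⟨h1, h2, h3, h4⟩ := h
  refine ⟨⟨(x.val ^^^ y.val) - 1, by omega⟩, ?_⟩
  have e : (x.val ^^^ y.val) - 1 + 1 = x.val ^^^ y.val := by omega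
  simp only [orth, e, key _ h1, key _ h2, key _ h3, key _ h4]
  decide

/-- the vertices: the points, and the classes of eight vertices -/
abbrev V : Type := Fin 31 ⊕ (Bool × Fin 31 × Fin 8)

/-- adjacency -/
def adj : V → V → Bool
  | .inl p, .inl q => ! decide (p = q)
  | .inl p, .inr (_, f, _) => orth f p
  | .inr (_, f, _), .inl p => orth f p
  | .inr (s, f, i), .inr (t, g, j) => (! decide (s = t)) || (decide (f = g) && ! decide (i = j))

/-- the graph `X` -/
def X : SimpleGraph V where
  Adj v w := adj v w = true
  symm := ⟨by
    rintro (p | ⟨s, f, i⟩) (q | ⟨t, g, j⟩) h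
    · simp only [adj, Bool.not_eq_true', decide_eq_false_iff_not] at h ⊢
      exact fun e => h e.symm
    · exact h
    · exact h
    · simp only [adj, Bool.or_eq_true, Bool.and_eq_true, Bool.not_eq_true', decide_eq_false_iff_not,
        decide_eq_true_eq] at h ⊢
      rcases h with h | ⟨h, h'⟩
      · exact Or.inl (fun e => h e.symm)
      · exact Or.inr ⟨h.symm, fun e => h' e.symm⟩⟩
  loopless := ⟨by
    rintro (p | ⟨s, f, i⟩) h
    · simp [adj] at h
    · simp [adj] at h⟩

instance : DecidableRel X.Adj := fun v w => inferInstanceAs (Decidable (adj v w = true))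

lemma adj_point {p q : Fin 31} : X.Adj (.inl p) (.inl q) ↔ p ≠ q := by
  simp [X, adj]

lemma adj_mixed {p f : Fin 31} {s : Bool} {i : Fin 8} :
    X.Adj (.inl p) (.inr (s, f, i)) ↔ orth f p = true := Iff.rfl

lemma adj_class {f g : Fin 31} {s t : Bool} {i j : Fin 8} :
    X.Adj (.inr (s, f, i)) (.inr (t, g, j)) ↔ s ≠ t ∨ (f = g ∧ i ≠ j) := by
  simp [X, adj]

lemma card_V : Fintype.card V = 527 := by
  simp [V]

lemma count_forms : ∀ p : Fin 31, (∑ f : Fin 31, (orth f p).toNat) = 15 := by
  decide +kernel

lemma count_points : ∀ f : Fin 31, (∑ p : Fin 31, (orth f p).toNat) = 15 := by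
  decide +kernel

lemma regX : X.IsRegularOfDegree 270 := by
  intro v
  have hd : X.degree v = ∑ w : V, (adj v w).toNat := by
    rw [← SimpleGraph.card_neighborFinset_eq_degree, SimpleGraph.neighborFinset_eq_filter,
      Finset.card_filter]
    refine Finset.sum_congr rfl fun w _ => ?_
    show (if adj v w = true then 1 else 0) = (adj v w).toNat
    cases adj v w <;> rfl
  rw [hd]
  rcases v with p | ⟨s, f, i⟩
  · have h1 : ∀ p : Fin 31, (∑ q : Fin 31, (! decide (p = q)).toNat) = 30 := by
      decide +kernel
    rw [Fintype.sum_sum_type]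
    simp only [Fintype.sum_prod_type, adj, h1]
    simp only [Finset.sum_const, Finset.card_univ, Fintype.card_fin, smul_eq_mul,
      ← Finset.mul_sum, count_forms, Fintype.card_bool, Nat.reduceMul, Nat.reduceAdd]
  · have h2 : ∀ i : Fin 8, (∑ j : Fin 8, (! decide (i = j)).toNat) = 7 := by
      decide +kernel
    have h3 : ∀ g : Fin 31,
        (∑ j : Fin 8, (decide (f = g) && ! decide (i = j)).toNat) = if f = g then 7 else 0 := by
      intro g
      by_cases hg : f = g
      · simp only [hg, decide_true, Bool.true_and, if_true]; exact h2 i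
      · simp only [hg, decide_false, Bool.false_and, Bool.toNat_false, Finset.sum_const_zero,
          if_false]
    rw [Fintype.sum_sum_type]
    cases s <;>
    simp only [Fintype.sum_prod_type, adj, count_points, Fintype.sum_bool, decide_true, decide_false,
      Bool.not_true, Bool.not_false, Bool.false_or, Bool.true_or, h3, reduceCtorEq,
      Finset.sum_ite_eq, Finset.mem_univ, if_true, Bool.toNat_true, Finset.sum_const,
      Finset.card_univ, Fintype.card_fin, smul_eq_mul, Nat.reduceMul, Nat.reduceAdd]

/-- a maximal clique of `X` contains a plane of `PG(4, 2)` -/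
lemma plane (A : Set V) (hA : Maximal X.IsClique A) :
    ∃ f g : Fin 31, ∀ p : Fin 31, orth f p = true → orth g p = true → Sum.inl p ∈ A := by
  have hside : ∀ s : Bool, ∃ f : Fin 31, ∀ h j, Sum.inr (s, h, j) ∈ A → h = f := by
    intro s
    by_cases hs : ∃ f i, (Sum.inr (s, f, i) : V) ∈ A
    · obtain ⟨f, i, hf⟩ := hs
      refine ⟨f, fun h j hj => ?_⟩
      by_contra hne
      have hne' : (Sum.inr (s, h, j) : V) ≠ Sum.inr (s, f, i) := by
        intro e
        simp only [Sum.inr.injEq, Prod.mk.injEq] at e
        exact hne e.2.1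
      rcases adj_class.mp (hA.prop hj hf hne') with h1 | h1
      · exact h1 rfl
      · exact hne h1.1
    · exact ⟨0, fun h j hj => absurd ⟨h, j, hj⟩ hs⟩
  obtain ⟨f, hf⟩ := hside false
  obtain ⟨g, hg⟩ := hside true
  refine ⟨f, g, fun p hp hq => ?_⟩
  have hc : X.IsClique (insert (Sum.inl p) A) := by
    rw [SimpleGraph.isClique_insert]
    refine ⟨hA.prop, ?_⟩
    rintro (q | ⟨s, h, j⟩) hb hne
    · exact adj_point.mpr fun e => hne (by rw [e])
    · rw [adj_mixed]
      cases s
      · rw [hf h j hb]; exact hp
      · rw [hg h j hb]; exact hq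
  exact hA.le_of_ge hc (Set.subset_insert _ _) (Set.mem_insert _ _)

lemma cliquesX (A B : Set V) (hA : Maximal X.IsClique A) (hB : Maximal X.IsClique B) :
    (A ∩ B).Nonempty := by
  obtain ⟨f, g, h⟩ := plane A hA
  obtain ⟨f', g', h'⟩ := plane B hB
  obtain ⟨p, h1, h2, h3, h4⟩ := four f g f' g'
  exact ⟨Sum.inl p, h p h1 h2, h' p h3 h4⟩


theorem ne_top : X ≠ ⊤ := by
  intro h
  have h1 : (⊤ : SimpleGraph V).Adj (Sum.inr (false, 0, 0)) (Sum.inr (false, 1, 0)) := by
    simp
  rw [← h, adj_class] at h1
  simp at h1

end Run7.h873.Berge
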