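import Pool.Agent.K7.H50.RJ.Main

set_option autoImplicit false

/-!
# Online scheduling with rejection on three machines, preemptive model

The algorithm of `Pool.Agent.K7.H50.RJ` (which never preempts a job) is compared with preemptive
offline schedules: a preemptive schedule of makespan `T` accepts only jobs of length at most `T`,
of total length at most `3 T`.
-/

namespace Pool.Agent.Run7.h873.RJP

open Pool.Agent.K7.H50.RJ
open Finset MeasureTheory

/-- Intervals inside `[0, T]` which are pairwise disjoint have total length at most `T`. -/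
theorem sum_len_le {ι : Type} [DecidableEq ι] (F : Finset ι) (a b : ι → ℝ) (T : ℝ) (hT : 0 ≤ T)
    (h0 : ∀ x ∈ F, 0 ≤ a x) (hab : ∀ x ∈ F, a x < b x) (hb : ∀ x ∈ F, b x ≤ T)
    (hd : ∀ x ∈ F, ∀ y ∈ F, x ≠ y → b x ≤ a y ∨ b y ≤ a x) :
    ∑ x ∈ F, (b x - a x) ≤ T := by
  have hdis : Set.PairwiseDisjoint (F : Set ι) (fun x => Set.Ioc (a x) (b x)) := by
    intro x hx y hy hxy
    show Disjoint (Set.Ioc (a x) (b x)) (Set.Ioc (a y) (b y))
    rw [Set.disjoint_left]
    intro z hz1 hz2
    rcases hd x hx y hy hxy with h | h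
    · exact absurd (lt_of_le_of_lt h hz2.1) (not_lt.2 hz1.2)
    · exact absurd (lt_of_le_of_lt h hz1.1) (not_lt.2 hz2.2)
  have h1 : volume (⋃ x ∈ F, Set.Ioc (a x) (b x)) = ∑ x ∈ F, volume (Set.Ioc (a x) (b x)) :=
    measure_biUnion_finset hdis fun x _ => measurableSet_Ioc
  have h2 : volume (⋃ x ∈ F, Set.Ioc (a x) (b x)) ≤ volume (Set.Icc (0 : ℝ) T) := by
    refine measure_mono ?_
    intro z hz
    simp only [Set.mem_iUnion] at hz
    obtain ⟨x, hx, hz⟩ := hz
    exact ⟨(h0 x hx).trans hz.1.le, hz.2.trans (hb x hx)⟩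
  have h3 : ∑ x ∈ F, volume (Set.Ioc (a x) (b x)) = ENNReal.ofReal (∑ x ∈ F, (b x - a x)) := by
    rw [ENNReal.ofReal_sum_of_nonneg fun x hx => (sub_pos.2 (hab x hx)).le]
    exact sum_congr rfl fun x _ => Real.volume_Ioc
  rw [h1, h3, Real.volume_Icc, sub_zero] at h2
  exact (ENNReal.ofReal_le_ofReal_iff hT).1 h2

variable (J : ℕ → Job)

/-! ## The offline side -/

theorem makespan_set_nonempty (n : ℕ) (S : ℕ → Option (Finset Slot)) :
    {T : ℝ | 0 ≤ T ∧ ∀ k < n, ∀ σ, S k = some σ → ∀ s ∈ σ, s.2.2 ≤ T}.Nonempty := by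
  classical
  let U : Finset Slot := (range n).biUnion fun k => (S k).getD ∅
  obtain ⟨M, hM⟩ := (U.image fun s => s.2.2).bddAbove
  refine ⟨max M 0, le_max_right _ _, ?_⟩
  intro k hk σ hσ s hs
  refine le_trans (hM ?_) (le_max_left _ _)
  rw [Finset.mem_coe, Finset.mem_image]
  refine ⟨s, ?_, rfl⟩
  rw [Finset.mem_biUnion]
  exact ⟨k, mem_range.2 hk, by rw [hσ]; exact hs⟩

theorem makespan_nonneg (n : ℕ) (S : ℕ → Option (Finset Slot)) : 0 ≤ makespan n S :=
  Real.sInf_nonneg fun _ h => h.1

theorem le_makespan (n : ℕ) (S : ℕ → Option (Finset Slot)) (k : ℕ) (hk : k < n)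
    (σ : Finset Slot) (hσ : S k = some σ) (s : Slot) (hs : s ∈ σ) : s.2.2 ≤ makespan n S :=
  le_csInf (makespan_set_nonempty n S) fun _ h => h.2 k hk σ hσ s hs

theorem job_le_makespan (n : ℕ) (S : ℕ → Option (Finset Slot)) (hF : Feasible J n S) (k : ℕ)
    (hk : k < n) (σ : Finset Slot) (hσ : S k = some σ) : (J k).t ≤ makespan n S := by
  classical
  rw [← hF.total k hk σ hσ]
  refine sum_len_le σ (fun s => s.2.1) (fun s => s.2.2) _ (makespan_nonneg n S)
    (fun s hs => (hF.slot k hk σ hσ s hs).1) (fun s hs => (hF.slot k hk σ hσ s hs).2)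
    (fun s hs => le_makespan n S k hk σ hσ s hs) ?_
  intro s hs s' hs' hne
  exact hF.apart k hk σ hσ s hs s' hs' hne

/-- The work on one machine is at most the makespan. -/
theorem machine_le_makespan (n : ℕ) (S : ℕ → Option (Finset Slot)) (hF : Feasible J n S)
    (i : Fin 3) :
    ∑ k ∈ range n, ∑ s ∈ ((S k).getD ∅).filter (fun s => s.1 = i), (s.2.2 - s.2.1) ≤
      makespan n S := by
  classical
  have hmem : ∀ k (s : Slot), s ∈ (S k).getD ∅ → ∃ σ, S k = some σ ∧ s ∈ σ := by
    intro k s hs
    rcases h : S k with _ | σ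
    · rw [h] at hs; simp at hs
    · rw [h] at hs; exact ⟨σ, rfl, hs⟩
  rw [Finset.sum_sigma' (range n) (fun k => ((S k).getD ∅).filter (fun s => s.1 = i))
    (fun _ s => s.2.2 - s.2.1)]
  refine sum_len_le _ (fun x : (_ : ℕ) × Slot => x.2.2.1) (fun x => x.2.2.2) _
    (makespan_nonneg n S) ?_ ?_ ?_ ?_
  · rintro ⟨k, s⟩ hx
    rw [mem_sigma, mem_filter] at hx
    obtain ⟨σ, h1, h2⟩ := hmem k s hx.2.1
    exact (hF.slot k (mem_range.1 hx.1) σ h1 s h2).1
  · rintro ⟨k, s⟩ hx
    rw [mem_sigma, mem_filter] at hx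
    obtain ⟨σ, h1, h2⟩ := hmem k s hx.2.1
    exact (hF.slot k (mem_range.1 hx.1) σ h1 s h2).2
  · rintro ⟨k, s⟩ hx
    rw [mem_sigma, mem_filter] at hx
    obtain ⟨σ, h1, h2⟩ := hmem k s hx.2.1
    exact le_makespan n S k (mem_range.1 hx.1) σ h1 s h2
  · rintro ⟨k, s⟩ hx ⟨k', s'⟩ hy hne
    rw [mem_sigma, mem_filter] at hx hy
    obtain ⟨σ, h1, h2⟩ := hmem k s hx.2.1
    obtain ⟨σ', h1', h2'⟩ := hmem k' s' hy.2.1
    by_cases hk : k = k'
    · subst hk
      have e : σ = σ' := Option.some.inj (h1.symm.trans h1')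
      subst e
      exact hF.apart k (mem_range.1 hx.1) σ h1 s h2 s' h2' fun h => hne (by rw [h])
    · exact hF.machine k (mem_range.1 hx.1) k' (mem_range.1 hy.1) hk σ σ' h1 h1' s h2 s' h2'
        (hx.2.2.trans hy.2.2.symm)

/-- The total length of the accepted jobs is at most three times the makespan. -/
theorem total_le_makespan (n : ℕ) (S : ℕ → Option (Finset Slot)) (hF : Feasible J n S) :
    sm n (fun k => (S k).isNone = false) (fun k => (J k).t) ≤ 3 * makespan n S := by
  classical
  have h1 : sm n (fun k => (S k).isNone = false) (fun k => (J k).t) =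
      ∑ i : Fin 3, ∑ k ∈ range n,
        ∑ s ∈ ((S k).getD ∅).filter (fun s => s.1 = i), (s.2.2 - s.2.1) := by
    rw [sum_comm, sm]
    refine sum_congr rfl fun k hk => ?_
    rcases h : S k with _ | σ
    · simp
    · rw [if_pos (by simp), ← hF.total k (mem_range.1 hk) σ h]
      show ∑ s ∈ σ, (s.2.2 - s.2.1) = ∑ i : Fin 3, ∑ s ∈ σ.filter (fun s => s.1 = i), (s.2.2 - s.2.1)
      exact (sum_fiberwise σ (fun s => s.1) fun s => s.2.2 - s.2.1).symm
  rw [h1]
  calc _ ≤ ∑ _i : Fin 3, makespan n S := sum_le_sum fun i _ => machine_le_makespan J n S hF i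
    _ = 3 * makespan n S := by simp

/-! ## The algorithm -/

open Classical in
/-- The algorithm: an accepted job is put in one slot at the end of a least loaded machine. -/
noncomputable def algP (l : List Job) : Option (Finset Slot) :=
  match l.getLast? with
  | none => none
  | some j => if acc (run l.dropLast) j then
      some {(least (run l.dropLast).L, (run l.dropLast).L (least (run l.dropLast).L),
        (run l.dropLast).L (least (run l.dropLast).L) + j.t)}
    else none

open Classical in
theorem algP_dec (k : ℕ) : decisions algP J k =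
    if acc (S J k) (J k) then some {(least (S J k).L, (S J k).L (least (S J k).L),
      (S J k).L (least (S J k).L) + (J k).t)} else none := by
  unfold decisions algP S
  rw [List.range_succ, List.map_append]
  simp

theorem algP_some (k : ℕ) (σ : Finset Slot) (h : decisions algP J k = some σ) :
    acc (S J k) (J k) ∧ σ = {(least (S J k).L, (S J k).L (least (S J k).L),
      (S J k).L (least (S J k).L) + (J k).t)} := by
  classical
  rw [algP_dec] at h
  split_ifs at h with h1
  exact ⟨h1, (Option.some.inj h).symm⟩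

theorem algP_isNone (k : ℕ) : (decisions algP J k).isNone = (decisions alg J k).isNone := by
  classical
  rw [algP_dec, alg_dec, dec]
  split_ifs <;> rfl

theorem S_L_step (m : ℕ) (i : Fin 3) : (S J m).L i ≤ (S J (m + 1)).L i := by
  classical
  rw [S_succ, upd]
  have := (J m).t_pos
  split_ifs with h
  · by_cases h2 : i = least (S J m).L
    · subst h2; simp [this.le]
    · simp [Function.update_of_ne h2]
  · exact le_rfl

theorem S_L_mono {m n : ℕ} (h : m ≤ n) (i : Fin 3) : (S J m).L i ≤ (S J n).L i := by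
  induction n, h using Nat.le_induction with
  | base => exact le_rfl
  | succ n _ ih => exact ih.trans (S_L_step J n i)

theorem S_L_nonneg (n : ℕ) (i : Fin 3) : 0 ≤ (S J n).L i :=
  S_L_mono J (Nat.zero_le n) i

theorem S_L_end (k n : ℕ) (hk : k < n) (h : acc (S J k) (J k)) :
    (S J k).L (least (S J k).L) + (J k).t ≤ (S J n).L (least (S J k).L) := by
  classical
  refine le_trans ?_ (S_L_mono J hk (least (S J k).L))
  rw [S_succ, upd, if_pos h]
  simp

theorem feasible_algP (n : ℕ) : Feasible J n (decisions algP J) where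
  slot := by
    intro k _ σ hσ s hs
    obtain ⟨_, rfl⟩ := algP_some J k σ hσ
    rw [mem_singleton] at hs
    subst hs
    exact ⟨S_L_nonneg J k _, by have := (J k).t_pos; simp [this]⟩
  apart := by
    intro k _ σ hσ s hs s' hs' hne
    obtain ⟨_, rfl⟩ := algP_some J k σ hσ
    rw [mem_singleton] at hs hs'
    exact absurd (hs.trans hs'.symm) hne
  total := by
    intro k _ σ hσ
    obtain ⟨_, rfl⟩ := algP_some J k σ hσ
    simp
  machine := by
    have key : ∀ k k' : ℕ, k < k' → ∀ σ σ', decisions algP J k = some σ →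
        decisions algP J k' = some σ' → ∀ s ∈ σ, ∀ s' ∈ σ', s.1 = s'.1 → s.2.2 ≤ s'.2.1 := by
      intro k k' hkk σ σ' hσ hσ' s hs s' hs' h1
      obtain ⟨ha, rfl⟩ := algP_some J k σ hσ
      obtain ⟨_, rfl⟩ := algP_some J k' σ' hσ'
      rw [mem_singleton] at hs hs'
      subst hs
      subst hs'
      have h2 := S_L_end J k k' hkk ha
      have h1' : least (S J k).L = least (S J k').L := h1
      show (S J k).L (least (S J k).L) + (J k).t ≤ (S J k').L (least (S J k').L)
      rw [← h1']
      exact h2
    intro k _ k' _ hne σ σ' hσ hσ' s hs s' hs' h1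
    rcases lt_or_gt_of_ne hne with h | h
    · exact Or.inl (key k k' h σ σ' hσ hσ' s hs s' hs' h1)
    · exact Or.inr (key k' k h σ' σ hσ' hσ s' hs' s hs h1.symm)

/-- The algorithm is `1.99`-competitive against preemptive schedules. -/
theorem competitiveP_algP : CompetitiveP algP (199 / 100) := by
  classical
  intro J n
  refine ⟨feasible_algP J n, ?_⟩
  have hpen : penalty J n (decisions algP J) = (S J n).P := by
    rw [S_P, penalty, penalty]
    exact sum_congr rfl fun k _ => by rw [algP_isNone]
  have hpen2 : ∀ d : ℕ → Option (Finset Slot),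
      penalty J n d = sm n (fun k => ¬ (d k).isNone = false) fun k => (J k).p := by
    intro d
    rw [penalty, sm]
    refine sum_congr rfl fun k _ => ?_
    cases h : (d k).isNone <;> simp
  have key : ∀ d : ℕ → Option (Finset Slot), Feasible J n d →
      costP J n (decisions algP J) ≤ (199 / 100) * costP J n d := by
    intro d hd
    have hT0 := makespan_nonneg n d
    have hc : ∀ i, (S J n).L i + (S J n).P ≤ (199 / 100) * (makespan n d + penalty J n d) := by
      intro i
      rw [hpen2]
      refine core J (fun k => (d k).isNone = false) n (makespan n d) hT0 ?_ ?_ i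
      · intro k hk hO
        rcases h : d k with _ | σ
        · rw [h] at hO; simp at hO
        · exact job_le_makespan J n d hd k hk σ h
      · exact total_le_makespan J n d hd
    have hm : makespan n (decisions algP J) ≤
        Finset.univ.sup' Finset.univ_nonempty (S J n).L := by
      refine csInf_le ⟨0, fun T hT => hT.1⟩ ⟨?_, ?_⟩
      · exact (S_L_nonneg J n 0).trans (Finset.le_sup' (S J n).L (Finset.mem_univ 0))
      · intro k hk σ hσ s hs
        obtain ⟨ha, rfl⟩ := algP_some J k σ hσ
        rw [mem_singleton] at hs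
        subst hs
        exact (S_L_end J k n hk ha).trans (Finset.le_sup' (S J n).L (Finset.mem_univ _))
    have hs : Finset.univ.sup' Finset.univ_nonempty (S J n).L ≤
        (199 / 100) * (makespan n d + penalty J n d) - (S J n).P :=
      Finset.sup'_le _ _ fun i _ => by linarith [hc i]
    show makespan n (decisions algP J) + penalty J n (decisions algP J) ≤
      (199 / 100) * (makespan n d + penalty J n d)
    rw [hpen]
    linarith
  have hne : Nonempty {S : ℕ → Option (Finset Slot) // Feasible J n S} :=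
    ⟨⟨_, feasible_algP J n⟩⟩
  unfold OPTP
  have h1 : (100 / 199) * costP J n (decisions algP J) ≤
      ⨅ S : {S : ℕ → Option (Finset Slot) // Feasible J n S}, costP J n S.1 := by
    refine le_ciInf fun d => ?_
    linarith [key d.1 d.2]
  linarith

end Pool.Agent.Run7.h873.RJP
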