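import Pool.Agent.Run7.h873.SigLower
import Pool.Agent.Run7.h668.Nine

/-!
# Sphere-of-influence graphs: superadditivity and a lower bound
-/

namespace Pool.Agent.Run7.h873.SigGraph

open Metric Filter Topology

/-- The Euclidean plane. -/
abbrev E : Type := EuclideanSpace ℝ (Fin 2)

/-- The distance from `x` to the nearest other point of `S`. -/
noncomputable def influence (S : Finset E) (x : E) : ℝ :=
  infDist x ((S : Set E) \ {x})

/-- The open sphere-of-influence graph of `S`: its vertices are the points of `S`, and two distinct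
points are adjacent when the open discs around them whose radii are the distances to their nearest
neighbours intersect. -/
def sig (S : Finset E) : SimpleGraph S where
  Adj x y := x ≠ y ∧
    (ball (x : E) (influence S x) ∩ ball (y : E) (influence S y)).Nonempty
  symm := ⟨fun _ _ h => ⟨h.1.symm, by rw [Set.inter_comm]; exact h.2⟩⟩
  loopless := ⟨fun _ h => h.1 rfl⟩

theorem dist_sq (x y : E) :
    dist x y ^ 2 = (x 0 - y 0) ^ 2 + (x 1 - y 1) ^ 2 := by
  rw [EuclideanSpace.dist_eq, Real.sq_sqrt (Finset.sum_nonneg (fun i _ => sq_nonneg _)),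
    Fin.sum_univ_two, Real.dist_eq, Real.dist_eq, sq_abs, sq_abs]

theorem influence_pos {S : Finset E} (hS : 2 ≤ S.card) (x : E) : 0 < influence S x := by
  have hfin : ((S : Set E) \ {x}).Finite := S.finite_toSet.subset Set.sdiff_subset
  have hne : ((S : Set E) \ {x}).Nonempty := by
    obtain ⟨y, hy, hyx⟩ := Finset.exists_mem_ne (by omega : 1 < S.card) x
    exact ⟨y, hy, hyx⟩
  exact (hfin.isClosed.notMem_iff_infDist_pos hne).1 (fun h => h.2 rfl)

/-- At most `9 n` edges (helper668's theorem on Minkowski arrangements), for every `n`. -/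
theorem le_nine (S : Finset E) : (sig S).edgeSet.ncard ≤ 9 * S.card := by
  classical
  by_cases hS : 2 ≤ S.card
  swap
  · have h0 : (sig S).edgeSet = ∅ := by
      rw [Set.eq_empty_iff_forall_notMem]
      intro e
      induction e using Sym2.ind with
      | _ x y =>
        rw [SimpleGraph.mem_edgeSet]
        intro h
        apply h.1
        have := Finset.card_le_one.1 (by omega : S.card ≤ 1) x x.2 y y.2
        exact Subtype.ext this
    rw [h0]
    simp
  have h := Run7.h668.mink_nine (ι := S) (fun i => (i : E) 0)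
    (fun i => (i : E) 1) (fun i => influence S i)
    (fun i => influence_pos hS i)
    (by
      intro i j hij
      rw [← dist_sq]
      have h1 : influence S (i : E) ≤ dist (i : E) j :=
        infDist_le_dist_of_mem ⟨j.2, fun h => hij (Subtype.ext h).symm⟩
      have h2 := influence_pos hS (i : E)
      exact pow_le_pow_left₀ h2.le h1 2)
  rw [Fintype.card_coe] at h
  refine le_trans ?_ h
  rw [← Set.ncard_coe_finset]
  refine Set.ncard_le_ncard_of_injOn (fun e => e.toFinset) ?_ ?_ (Finset.finite_toSet _)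
  · intro e he
    induction e using Sym2.ind with
    | _ x y =>
      rw [SimpleGraph.mem_edgeSet] at he
      obtain ⟨hxy, z, hz1, hz2⟩ := he
      rw [Finset.mem_coe]
      simp only [Run7.h668.EdgesOff, Finset.mem_filter, Finset.mem_univ, true_and]
      refine ⟨x, y, hxy, by simp, ?_, ?_⟩
      · ext w
        simp
      · rw [← dist_sq]
        have h1 : dist (x : E) y < influence S x + influence S y := by
          rw [mem_ball] at hz1 hz2
          calc dist (x : E) y ≤ dist (x : E) z + dist z y := dist_triangle _ _ _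
            _ = dist z x + dist z y := by rw [dist_comm (x : E) z]
            _ < _ := add_lt_add hz1 hz2
        exact pow_lt_pow_left₀ h1 dist_nonneg two_ne_zero
  · intro e _ e' _ hee
    apply Sym2.ext
    intro z
    rw [← Sym2.mem_toFinset, ← Sym2.mem_toFinset]
    simp only at hee
    rw [hee]

/-! ### Superadditivity -/

theorem adj_of {P W : Finset E} (v : E)
    (far : ∀ p ∈ P, ∀ z ∈ W, (∀ p' ∈ P, z ≠ p' + v) → ∀ p' ∈ P, dist p p' ≤ dist (p + v) z)
    {x y : E} (hx : x ∈ P) (hy : y ∈ P) (hne : x ≠ y) (hxW : x + v ∈ W) :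
    influence P y ≤ influence W (y + v) := by
  unfold influence
  have hns : ((W : Set E) \ {y + v}).Nonempty :=
    ⟨x + v, hxW, fun h => hne (add_right_cancel h)⟩
  refine (le_infDist hns).2 ?_
  rintro z ⟨hz, hzy⟩
  by_cases h : ∃ p' ∈ P, z = p' + v
  · obtain ⟨p', hp', rfl⟩ := h
    rw [dist_add_right]
    exact infDist_le_dist_of_mem ⟨hp', fun h => hzy (by rw [h]; rfl)⟩
  · push Not at h
    have h5 : x ∈ (P : Set E) \ {y} := ⟨hx, hne⟩
    exact (infDist_le_dist_of_mem h5).trans (far y hy z hz h x hx)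

/-- The translation of the vertices. -/
def tr {P W : Finset E} (v : E) (h : ∀ p ∈ P, p + v ∈ W) (p : P) : W := ⟨p + v, h p p.2⟩

theorem tr_inj {P W : Finset E} (v : E) (h : ∀ p ∈ P, p + v ∈ W) :
    Function.Injective (tr v h) := by
  intro a b hab
  apply Subtype.ext
  exact add_right_cancel (congrArg Subtype.val hab)

theorem map_edge {P W : Finset E} (v : E) (h : ∀ p ∈ P, p + v ∈ W)
    (far : ∀ p ∈ P, ∀ z ∈ W, (∀ p' ∈ P, z ≠ p' + v) → ∀ p' ∈ P, dist p p' ≤ dist (p + v) z) :
    Sym2.map (tr v h) '' (sig P).edgeSet ⊆ (sig W).edgeSet := by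
  rintro _ ⟨e, he, rfl⟩
  induction e using Sym2.ind with
  | _ x y =>
    rw [SimpleGraph.mem_edgeSet] at he
    obtain ⟨hxy, z, hz1, hz2⟩ := he
    have hne : (x : E) ≠ y := fun h => hxy (Subtype.ext h)
    rw [Sym2.map_mk, SimpleGraph.mem_edgeSet]
    refine ⟨fun h' => hxy (tr_inj v h h'), z + v, ?_, ?_⟩
    · have := adj_of v far y.2 x.2 hne.symm (h y y.2)
      rw [mem_ball] at hz1 ⊢
      show dist (z + v) ((x : E) + v) < influence W ((x : E) + v)
      rw [dist_add_right]
      exact hz1.trans_le this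
    · have := adj_of v far x.2 y.2 hne (h x x.2)
      rw [mem_ball] at hz2 ⊢
      show dist (z + v) ((y : E) + v) < influence W ((y : E) + v)
      rw [dist_add_right]
      exact hz2.trans_le this

theorem superadd (P Q : Finset E) : ∃ W : Finset E, W.card = P.card + Q.card ∧
    (sig P).edgeSet.ncard + (sig Q).edgeSet.ncard ≤ (sig W).edgeSet.ncard := by
  classical
  obtain ⟨R, hR⟩ := (((P ∪ Q) ×ˢ (P ∪ Q)).image (fun p => dist p.1 p.2)).bddAbove
  have hR' : ∀ a ∈ P ∪ Q, ∀ b ∈ P ∪ Q, dist a b ≤ R := fun a ha b hb =>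
    hR (by
      rw [Finset.mem_coe, Finset.mem_image]
      exact ⟨(a, b), Finset.mem_product.2 ⟨ha, hb⟩, rfl⟩)
  obtain ⟨v, hv⟩ : ∃ v : E, 2 * |R| + 1 ≤ ‖v‖ := by
    refine ⟨EuclideanSpace.single 0 (2 * |R| + 1), ?_⟩
    rw [PiLp.norm_single, Real.norm_eq_abs]
    exact le_abs_self _
  -- far apart
  have hfar : ∀ a ∈ P ∪ Q, ∀ b ∈ P ∪ Q, |R| + 1 ≤ dist a (b + v) := by
    intro a ha b hb
    have h1 := hR' a ha b hb
    have h2 : ‖v‖ ≤ dist a (b + v) + dist a b := by
      have : v = (b + v - a) + (a - b) := by abel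
      calc ‖v‖ = ‖(b + v - a) + (a - b)‖ := by rw [← this]
        _ ≤ ‖b + v - a‖ + ‖a - b‖ := norm_add_le _ _
        _ = dist a (b + v) + dist a b := by
          rw [dist_comm a (b + v), dist_eq_norm, dist_eq_norm]
    have h3 := le_abs_self R
    linarith
  set W : Finset E := P ∪ Q.image (· + v) with hW
  have hPW : ∀ p ∈ P, p + 0 ∈ W := by
    intro p hp
    rw [add_zero, hW, Finset.mem_union]
    exact Or.inl hp
  have hQW : ∀ q ∈ Q, q + v ∈ W := by
    intro q hq
    rw [hW, Finset.mem_union]
    exact Or.inr (Finset.mem_image_of_mem _ hq)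
  have hdisj : ∀ p ∈ P, ∀ q ∈ Q, p ≠ q + v := by
    intro p hp q hq h
    have := hfar p (Finset.mem_union_left _ hp) q (Finset.mem_union_right _ hq)
    rw [h, dist_self] at this
    have := abs_nonneg R
    linarith
  refine ⟨W, ?_, ?_⟩
  · rw [hW, Finset.card_union_of_disjoint, Finset.card_image_of_injective _
      (add_left_injective v)]
    rw [Finset.disjoint_left]
    intro p hp hq
    obtain ⟨q, hq, hqp⟩ := Finset.mem_image.1 hq
    exact hdisj p hp q hq hqp.symm
  have farP : ∀ p ∈ P, ∀ z ∈ W, (∀ p' ∈ P, z ≠ p' + 0) → ∀ p' ∈ P,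
      dist p p' ≤ dist (p + 0) z := by
    intro p hp z hz hne p' hp'
    rw [hW, Finset.mem_union] at hz
    rcases hz with hz | hz
    · exact absurd (add_zero z).symm (hne z hz)
    · obtain ⟨q, hq, rfl⟩ := Finset.mem_image.1 hz
      have h1 := hfar p (Finset.mem_union_left _ hp) q (Finset.mem_union_right _ hq)
      have h2 := hR' p (Finset.mem_union_left _ hp) p' (Finset.mem_union_left _ hp')
      have h3 := le_abs_self R
      rw [add_zero]
      linarith
  have farQ : ∀ p ∈ Q, ∀ z ∈ W, (∀ p' ∈ Q, z ≠ p' + v) → ∀ p' ∈ Q,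
      dist p p' ≤ dist (p + v) z := by
    intro p hp z hz hne p' hp'
    rw [hW, Finset.mem_union] at hz
    rcases hz with hz | hz
    · have h1 := hfar z (Finset.mem_union_left _ hz) p (Finset.mem_union_right _ hp)
      have h2 := hR' p (Finset.mem_union_right _ hp) p' (Finset.mem_union_right _ hp')
      have h3 := le_abs_self R
      rw [dist_comm (p + v) z]
      linarith
    · obtain ⟨q, hq, rfl⟩ := Finset.mem_image.1 hz
      exact absurd rfl (hne q hq)
  have m1 := map_edge 0 hPW farP
  have m2 := map_edge v hQW farQ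
  have hd : Disjoint (Sym2.map (tr 0 hPW) '' (sig P).edgeSet)
      (Sym2.map (tr v hQW) '' (sig Q).edgeSet) := by
    rw [Set.disjoint_left]
    rintro _ ⟨e, -, rfl⟩ ⟨e', -, hee⟩
    induction e using Sym2.ind with
    | _ x y =>
      have hx : tr 0 hPW x ∈ Sym2.map (tr v hQW) e' := by
        rw [hee, Sym2.map_mk]
        exact Sym2.mem_mk_left _ _
      obtain ⟨q, -, hq⟩ := Sym2.mem_map.1 hx
      have := congrArg Subtype.val hq
      simp only [tr] at this
      rw [add_zero] at this
      exact hdisj x x.2 q q.2 this.symm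
  calc (sig P).edgeSet.ncard + (sig Q).edgeSet.ncard
      = (Sym2.map (tr 0 hPW) '' (sig P).edgeSet).ncard +
        (Sym2.map (tr v hQW) '' (sig Q).edgeSet).ncard := by
        rw [Set.ncard_image_of_injective _ (Sym2.map.injective (tr_inj 0 hPW)),
          Set.ncard_image_of_injective _ (Sym2.map.injective (tr_inj v hQW))]
    _ = (Sym2.map (tr 0 hPW) '' (sig P).edgeSet ∪
        Sym2.map (tr v hQW) '' (sig Q).edgeSet).ncard :=
        (Set.ncard_union_eq hd (Set.toFinite _) (Set.toFinite _)).symm
    _ ≤ (sig W).edgeSet.ncard := Set.ncard_le_ncard (Set.union_subset m1 m2) (Set.toFinite _)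

/-! ### The doubly zigzag grid -/

open SigLower

/-- The points of the grid. -/
noncomputable def pt (z : ℕ × ℕ) : E := !₂[cx z.1 + ex z.2, cy z.1 + ey z.2]

theorem dist_pt (z w : ℕ × ℕ) : dist (pt z) (pt w) ^ 2 = dd z.1 z.2 w.1 w.2 := by
  rw [dist_sq]
  simp [pt, dd]

theorem one_le_dist {z w : ℕ × ℕ} (h : z ≠ w) : 1 ≤ dist (pt z) (pt w) := by
  have h1 : 1 ≤ dd z.1 z.2 w.1 w.2 := one_le_dd (fun h' => h (Prod.ext h'.1 h'.2))
  rw [← dist_pt] at h1
  by_contra hcon
  push Not at hcon
  have := pow_lt_one₀ dist_nonneg hcon two_ne_zero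
  linarith

theorem pt_injective : Function.Injective pt := by
  intro z w h
  by_contra hne
  have := one_le_dist hne
  rw [h, dist_self] at this
  linarith

open scoped Classical in
/-- The grid. -/
noncomputable def grid (k : ℕ) : Finset E := (Finset.range k ×ˢ Finset.range k).image pt

theorem mem_grid {k : ℕ} {z : ℕ × ℕ} (h1 : z.1 < k) (h2 : z.2 < k) : pt z ∈ grid k := by
  classical
  rw [grid, Finset.mem_image]
  exact ⟨z, Finset.mem_product.2 ⟨Finset.mem_range.2 h1, Finset.mem_range.2 h2⟩, rfl⟩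

theorem card_grid (k : ℕ) : (grid k).card = k * k := by
  classical
  rw [grid, Finset.card_image_of_injective _ pt_injective, Finset.card_product,
    Finset.card_range]

theorem one_le_influence {k : ℕ} (hk : 2 ≤ k) (z : ℕ × ℕ) : 1 ≤ influence (grid k) (pt z) := by
  classical
  unfold influence
  have hne : ((grid k : Set E) \ {pt z}).Nonempty := by
    obtain ⟨y, hy, hyx⟩ := Finset.exists_mem_ne (by rw [card_grid]; nlinarith :
      1 < (grid k).card) (pt z)
    exact ⟨y, hy, hyx⟩
  rw [le_infDist hne]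
  rintro y ⟨hy, hyz⟩
  rw [Finset.mem_coe, grid, Finset.mem_image] at hy
  obtain ⟨w, -, rfl⟩ := hy
  exact one_le_dist (fun h => hyz (by rw [h]; rfl))

theorem grid_lower (m : ℕ) : 8 * (m * m) ≤ (sig (grid (m + 2))).edgeSet.ncard := by
  classical
  have bd : ∀ f : Fin 8, pa f ≤ 2 ∧ pb f ≤ 2 ∧ qa f ≤ 2 ∧ qb f ≤ 2 := by
    decide
  let F : Fin 8 × Fin m × Fin m → Sym2 (grid (m + 2)) := fun x =>
    s(⟨pt (x.2.1 + pa x.1, x.2.2 + pb x.1), mem_grid
        (by have := bd x.1; have := x.2.1.2; simp only; omega)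
        (by have := bd x.1; have := x.2.2.2; simp only; omega)⟩,
      ⟨pt (x.2.1 + qa x.1, x.2.2 + qb x.1), mem_grid
        (by have := bd x.1; have := x.2.1.2; simp only; omega)
        (by have := bd x.1; have := x.2.2.2; simp only; omega)⟩)
  have hF : ∀ x, F x ∈ (sig (grid (m + 2))).edgeSet := by
    rintro ⟨f, i, j⟩
    show s(_, _) ∈ _
    rw [SimpleGraph.mem_edgeSet]
    have hlt := dd_lt_four f i j
    have hd : dist (pt (i + pa f, j + pb f)) (pt (i + qa f, j + qb f)) < 2 := by
      have h1 := dist_pt (i + pa f, j + pb f) (i + qa f, j + qb f)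
      simp only at h1
      rw [← h1] at hlt
      by_contra hcon
      push Not at hcon
      nlinarith
    have hne : pt ((i : ℕ) + pa f, (j : ℕ) + pb f) ≠ pt ((i : ℕ) + qa f, (j : ℕ) + qb f) := by
      intro h
      have h1 := pt_injective h
      rw [Prod.mk.injEq] at h1
      revert h1
      fin_cases f <;> simp [pa, pb, qa, qb]
    refine ⟨fun h => hne (congrArg Subtype.val h), midpoint ℝ (pt (i + pa f, j + pb f))
      (pt (i + qa f, j + qb f)), ?_, ?_⟩
    · rw [mem_ball, dist_midpoint_left]
      have := one_le_influence (show 2 ≤ m + 2 by omega) ((i : ℕ) + pa f, (j : ℕ) + pb f)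
      rw [Real.norm_eq_abs, abs_of_pos two_pos]
      simp only
      linarith
    · rw [mem_ball, dist_midpoint_right]
      have := one_le_influence (show 2 ≤ m + 2 by omega) ((i : ℕ) + qa f, (j : ℕ) + qb f)
      rw [Real.norm_eq_abs, abs_of_pos two_pos]
      simp only
      linarith
  have hinj : Function.Injective F := by
    rintro ⟨f, i, j⟩ ⟨f', i', j'⟩ h
    have h1 : (s(_, _) : Sym2 (grid (m + 2))) = s(_, _) := h
    rw [Sym2.eq_iff] at h1
    have key : f = f' ∧ (i : ℕ) = i' ∧ (j : ℕ) = j' := by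
      apply offsets
      rcases h1 with ⟨h1, h2⟩ | ⟨h1, h2⟩
      · left
        have e1 := pt_injective (congrArg Subtype.val h1)
        have e2 := pt_injective (congrArg Subtype.val h2)
        rw [Prod.mk.injEq] at e1 e2
        exact ⟨e1.1, e1.2, e2.1, e2.2⟩
      · right
        have e1 := pt_injective (congrArg Subtype.val h1)
        have e2 := pt_injective (congrArg Subtype.val h2)
        rw [Prod.mk.injEq] at e1 e2
        exact ⟨e1.1, e1.2, e2.1, e2.2⟩
    obtain ⟨rfl, h2, h3⟩ := key
    rw [Fin.ext h2, Fin.ext h3]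
  calc 8 * (m * m) = Nat.card (Fin 8 × Fin m × Fin m) := by simp
    _ = (Set.range F).ncard := by
        rw [← Nat.card_range_of_injective hinj]
        rfl
    _ ≤ _ := Set.ncard_le_ncard (Set.range_subset_iff.2 hF) (Set.toFinite _)

end Pool.Agent.Run7.h873.SigGraph
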