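import Mathlib

/-!
# A doubly zigzag lattice: a planar set with minimum distance one in which almost every point has
sixteen other points at distance less than two
-/

namespace Pool.Agent.Run7.h873.SigLower

/-- First coordinate of the `i`-th partial sum of the unit vectors `(1, 0)`, `(84/85, -13/85)`,
taken alternately. -/
noncomputable def cx (i : ℕ) : ℝ := (((i + 1) / 2 : ℕ) : ℝ) + ((i / 2 : ℕ) : ℝ) * (84 / 85)

/-- Second coordinate. -/
noncomputable def cy (i : ℕ) : ℝ := -(((i / 2 : ℕ) : ℝ) * (13 / 85))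

/-- First coordinate of the `j`-th partial sum of the unit vectors `(8/17, 15/17)`,
`(39/89, 80/89)`, taken alternately. -/
noncomputable def ex (j : ℕ) : ℝ :=
  (((j + 1) / 2 : ℕ) : ℝ) * (8 / 17) + ((j / 2 : ℕ) : ℝ) * (39 / 89)

/-- Second coordinate. -/
noncomputable def ey (j : ℕ) : ℝ :=
  (((j + 1) / 2 : ℕ) : ℝ) * (15 / 17) + ((j / 2 : ℕ) : ℝ) * (80 / 89)

theorem stepA (i : ℕ) : (cx (i + 1) = cx i + 1 ∧ cy (i + 1) = cy i) ∨
    (cx (i + 1) = cx i + 84 / 85 ∧ cy (i + 1) = cy i - 13 / 85) := by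
  rcases Nat.even_or_odd' i with ⟨u, rfl | rfl⟩
  · left
    have h1 : (2 * u + 1 + 1) / 2 = u + 1 := by omega
    have h2 : (2 * u + 1) / 2 = u := by omega
    have h3 : 2 * u / 2 = u := by omega
    constructor <;> simp only [cx, cy, h1, h2, h3] <;> push_cast <;> ring
  · right
    have h1 : (2 * u + 1 + 1 + 1) / 2 = u + 1 := by omega
    have h2 : (2 * u + 1 + 1) / 2 = u + 1 := by omega
    have h3 : (2 * u + 1) / 2 = u := by omega
    constructor <;> simp only [cx, cy, h1, h2, h3] <;> push_cast <;> ring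

theorem stepA2 (i : ℕ) : cx (i + 2) = cx i + 169 / 85 ∧ cy (i + 2) = cy i - 13 / 85 := by
  have h1 : (i + 2 + 1) / 2 = (i + 1) / 2 + 1 := by omega
  have h2 : (i + 2) / 2 = i / 2 + 1 := by omega
  constructor <;> simp only [cx, cy, h1, h2] <;> push_cast <;> ring

theorem stepB (i : ℕ) : (ex (i + 1) = ex i + 8 / 17 ∧ ey (i + 1) = ey i + 15 / 17) ∨
    (ex (i + 1) = ex i + 39 / 89 ∧ ey (i + 1) = ey i + 80 / 89) := by
  rcases Nat.even_or_odd' i with ⟨u, rfl | rfl⟩
  · left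
    have h1 : (2 * u + 1 + 1) / 2 = u + 1 := by omega
    have h2 : (2 * u + 1) / 2 = u := by omega
    have h3 : 2 * u / 2 = u := by omega
    constructor <;> simp only [ex, ey, h1, h2, h3] <;> push_cast <;> ring
  · right
    have h1 : (2 * u + 1 + 1 + 1) / 2 = u + 1 := by omega
    have h2 : (2 * u + 1 + 1) / 2 = u + 1 := by omega
    have h3 : (2 * u + 1) / 2 = u := by omega
    constructor <;> simp only [ex, ey, h1, h2, h3] <;> push_cast <;> ring

theorem stepB2 (i : ℕ) : ex (i + 2) = ex i + (8 / 17 + 39 / 89) ∧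
    ey (i + 2) = ey i + (15 / 17 + 80 / 89) := by
  have h1 : (i + 2 + 1) / 2 = (i + 1) / 2 + 1 := by omega
  have h2 : (i + 2) / 2 = i / 2 + 1 := by omega
  constructor <;> simp only [ex, ey, h1, h2] <;> push_cast <;> ring

/-- Squared distance of two points of the grid. -/
noncomputable def dd (i j i' j' : ℕ) : ℝ :=
  ((cx i + ex j) - (cx i' + ex j')) ^ 2 + ((cy i + ey j) - (cy i' + ey j')) ^ 2

theorem dd_comm (i j i' j' : ℕ) : dd i j i' j' = dd i' j' i j := by
  unfold dd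
  ring

theorem diffA {i i' : ℕ} (h : i ≤ i') : ∃ S T : ℕ, S + T = i' - i ∧
    cx i' = cx i + (S + T * (84 / 85)) ∧ cy i' = cy i - T * (13 / 85) := by
  obtain ⟨S, hS⟩ := Nat.exists_eq_add_of_le (show (i + 1) / 2 ≤ (i' + 1) / 2 by omega)
  obtain ⟨T, hT⟩ := Nat.exists_eq_add_of_le (show i / 2 ≤ i' / 2 by omega)
  refine ⟨S, T, by omega, ?_, ?_⟩
  · simp only [cx, hS, hT]
    push_cast
    ring
  · simp only [cy, hT]
    push_cast
    ring

theorem diffB {i i' : ℕ} (h : i ≤ i') : ∃ S T : ℕ, S + T = i' - i ∧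
    ex i' = ex i + (S * (8 / 17) + T * (39 / 89)) ∧
    ey i' = ey i + (S * (15 / 17) + T * (80 / 89)) := by
  obtain ⟨S, hS⟩ := Nat.exists_eq_add_of_le (show (i + 1) / 2 ≤ (i' + 1) / 2 by omega)
  obtain ⟨T, hT⟩ := Nat.exists_eq_add_of_le (show i / 2 ≤ i' / 2 by omega)
  refine ⟨S, T, by omega, ?_, ?_⟩
  · simp only [ex, hS, hT]
    push_cast
    ring
  · simp only [ey, hS, hT]
    push_cast
    ring

theorem plus_ineq (S T U V : ℕ) (h : 1 ≤ S + T + U + V) :
    (1 : ℝ) ≤ ((S + T * (84 / 85)) + (U * (8 / 17) + V * (39 / 89))) ^ 2 +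
      (-(T * (13 / 85)) + (U * (15 / 17) + V * (80 / 89))) ^ 2 := by
  have hS : (0 : ℝ) ≤ S := Nat.cast_nonneg S
  have hT : (0 : ℝ) ≤ T := Nat.cast_nonneg T
  have hU : (0 : ℝ) ≤ U := Nat.cast_nonneg U
  have hV : (0 : ℝ) ≤ V := Nat.cast_nonneg V
  have sq : ∀ n : ℕ, (n : ℝ) ≤ (n : ℝ) ^ 2 := by
    intro n
    exact_mod_cast Nat.le_self_pow two_ne_zero n
  have h1 : (1 : ℝ) ≤ S + T + U + V := by exact_mod_cast h
  have p1 := mul_nonneg hS hT
  have p2 := mul_nonneg hS hU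
  have p3 := mul_nonneg hS hV
  have p4 := mul_nonneg hT hU
  have p5 := mul_nonneg hT hV
  have p6 := mul_nonneg hU hV
  nlinarith [sq S, sq T, sq U, sq V]

theorem minus_ineq (S T U V : ℕ) (h : 1 ≤ S + T) (h' : 1 ≤ U + V) :
    (1 : ℝ) ≤ ((S + T * (84 / 85)) - (U * (8 / 17) + V * (39 / 89))) ^ 2 +
      (-(T * (13 / 85)) - (U * (15 / 17) + V * (80 / 89))) ^ 2 := by
  have hS : (0 : ℝ) ≤ S := Nat.cast_nonneg S
  have hT : (0 : ℝ) ≤ T := Nat.cast_nonneg T
  have hU : (0 : ℝ) ≤ U := Nat.cast_nonneg U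
  have hV : (0 : ℝ) ≤ V := Nat.cast_nonneg V
  have h1 : (1 : ℝ) ≤ S + T := by exact_mod_cast h
  have h2 : (1 : ℝ) ≤ U + V := by exact_mod_cast h'
  have p1 := mul_nonneg hS hT
  have p2 := mul_nonneg hS hU
  have p3 := mul_nonneg hS hV
  have p4 := mul_nonneg hT hU
  have p5 := mul_nonneg hT hV
  have p6 := mul_nonneg hU hV
  have key : (1 : ℝ) ≤ ((S : ℝ) + T) * (U + V) := by nlinarith
  have e : ((S + T * (84 / 85)) - (U * (8 / 17) + V * (39 / 89))) ^ 2 +
      (-(T * (13 / 85)) - (U * (15 / 17) + V * (80 / 89))) ^ 2 =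
      (S : ℝ) ^ 2 + T ^ 2 + 2 * (84 / 85) * (S * T) + (U ^ 2 + V ^ 2 + 2 * (1512 / 1513) * (U * V))
      - 2 * ((8 / 17) * (S * U) + (39 / 89) * (S * V) + (477 / 1445) * (T * U) +
        (2236 / 7565) * (T * V)) := by
    ring
  rw [e]
  nlinarith [sq_nonneg (((S : ℝ) + T) - (U + V)), sq_nonneg ((S : ℝ) - T),
    sq_nonneg ((U : ℝ) - V), sq_nonneg (S : ℝ), sq_nonneg (T : ℝ), sq_nonneg (U : ℝ),
    sq_nonneg (V : ℝ)]

theorem one_le_dd {i j i' j' : ℕ} (h : ¬ (i = i' ∧ j = j')) : 1 ≤ dd i j i' j' := by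
  wlog hi : i ≤ i' generalizing i j i' j'
  · rw [dd_comm]
    exact this (fun h' => h ⟨h'.1.symm, h'.2.symm⟩) (by omega)
  obtain ⟨S, T, hST, a1, a2⟩ := diffA hi
  rcases le_total j j' with hj | hj
  · obtain ⟨U, V, hUV, b1, b2⟩ := diffB hj
    have := plus_ineq S T U V (by omega)
    unfold dd
    rw [a1, a2, b1, b2]
    refine le_trans this (le_of_eq ?_)
    ring
  · obtain ⟨U, V, hUV, b1, b2⟩ := diffB hj
    by_cases hM : 1 ≤ S + T
    · by_cases hL : 1 ≤ U + V
      · have := minus_ineq S T U V hM hL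
        unfold dd
        rw [a1, a2, b1, b2]
        refine le_trans this (le_of_eq ?_)
        ring
      · have hU : U = 0 := by omega
        have hV : V = 0 := by omega
        have := plus_ineq S T U V (by omega)
        subst hU hV
        unfold dd
        rw [a1, a2, b1, b2]
        refine le_trans this (le_of_eq ?_)
        push_cast
        ring
    · have hS : S = 0 := by omega
      have hT : T = 0 := by omega
      have := plus_ineq S T U V (by omega)
      subst hS hT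
      unfold dd
      rw [a1, a2, b1, b2]
      refine le_trans this (le_of_eq ?_)
      push_cast
      ring

/-- Offsets of the first end of the eight families of edges. -/
def pa : Fin 8 → ℕ := ![0, 0, 1, 0, 0, 0, 0, 1]
/-- Offsets of the first end of the eight families of edges. -/
def pb : Fin 8 → ℕ := ![0, 0, 0, 0, 0, 0, 1, 0]
/-- Offsets of the second end of the eight families of edges. -/
def qa : Fin 8 → ℕ := ![1, 0, 0, 2, 0, 1, 2, 0]
/-- Offsets of the second end of the eight families of edges. -/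
def qb : Fin 8 → ℕ := ![0, 1, 1, 0, 2, 1, 0, 2]

theorem dd_lt_four (f : Fin 8) (i j : ℕ) :
    dd (i + pa f) (j + pb f) (i + qa f) (j + qb f) < 4 := by
  obtain ⟨a1, a2⟩ := stepA2 i
  obtain ⟨b1, b2⟩ := stepB2 j
  rcases stepA i with ⟨c1, c2⟩ | ⟨c1, c2⟩ <;> rcases stepB j with ⟨d1, d2⟩ | ⟨d1, d2⟩ <;>
    fin_cases f <;> simp [pa, pb, qa, qb, dd, a1, a2, b1, b2, c1, c2, d1, d2] <;> ring_nf <;>
    norm_num

theorem offsets {f f' : Fin 8} {i j i' j' : ℕ}
    (h : (i + pa f = i' + pa f' ∧ j + pb f = j' + pb f' ∧ i + qa f = i' + qa f' ∧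
        j + qb f = j' + qb f') ∨
      (i + pa f = i' + qa f' ∧ j + pb f = j' + qb f' ∧ i + qa f = i' + pa f' ∧
        j + qb f = j' + pb f')) : f = f' ∧ i = i' ∧ j = j' := by
  fin_cases f <;> fin_cases f' <;> simp [pa, pb, qa, qb] at h ⊢ <;> omega

end Pool.Agent.Run7.h873.SigLower
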